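import Pool.Agent.Q266.FD.All

/-!
# MP_24b761_mp: the dimension of the density of states measure of the Fibonacci Hamiltonian

The Hausdorff dimension of the density of states measure of the Fibonacci Hamiltonian is a
non-increasing function of the coupling constant on `(0, ∞)`. The density of states measure is
defined as in the problem, by the numbers of the eigenvalues of the restrictions to `{1, …, N}`, for
every phase; its existence and uniqueness are part of the theorem.
-/

set_option autoImplicit false

open MeasureTheory Filter Topology Set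
open scoped ENNReal NNReal

namespace Pool.Agent.Results.MP_24b761_mp.DimensionNonIncreasing

/-- `α = (√5 - 1)/2` -/
noncomputable def alpha : ℝ := (Real.sqrt 5 - 1) / 2

/-- the potential `lam χ_{[1-α,1)}(nα + ω mod 1)` of the Fibonacci Hamiltonian -/
noncomputable def potential (lam ω : ℝ) (n : ℤ) : ℝ :=
  if 1 - alpha ≤ Int.fract ((n : ℝ) * alpha + ω) then lam else 0

/-- the matrix of the restriction of `H_{lam,ω}` to the sites `1, …, N` -/
noncomputable def box (lam ω : ℝ) (N : ℕ) : Matrix (Fin N) (Fin N) ℝ := fun i j =>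
  if i = j then potential lam ω (((i : ℕ) : ℤ) + 1)
  else if (i : ℕ) + 1 = j ∨ (j : ℕ) + 1 = i then 1 else 0

open Classical in
/-- the number of the eigenvalues `≤ E` (with multiplicity) of this symmetric matrix -/
noncomputable def count (lam ω : ℝ) (N : ℕ) (E : ℝ) : ℕ :=
  ((box lam ω N).charpoly.roots.filter (fun y => y ≤ E)).card

/-- `ν` is the density of states measure for the coupling `lam`: a probability measure with
`ν(-∞, E] = lim (number of eigenvalues ≤ E of the restriction to {1, …, N}) / N` for all phases -/
def IsDensityOfStates (lam : ℝ) (ν : Measure ℝ) : Prop :=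
  IsProbabilityMeasure ν ∧ ∀ ω E : ℝ,
    Tendsto (fun N : ℕ => (count lam ω N E : ℝ) / N) atTop (𝓝 (ν (Iic E)).toReal)

/-- the Hausdorff dimension of a measure: the infimum of the dimensions of the Borel sets `S` with
`ν S = 1` -/
noncomputable def dimMeasure (ν : Measure ℝ) : ℝ≥0∞ :=
  ⨅ (S : Set ℝ) (_ : MeasurableSet S) (_ : ν S = 1), dimH S

lemma isDOS_iff (lam : ℝ) (ν : Measure ℝ) :
    IsDensityOfStates lam ν ↔ Pool.Agent.Q266.FD.IsDOS lam ν := Iff.rfl

lemma dim_eq (ν : Measure ℝ) [IsProbabilityMeasure ν] :
    dimMeasure ν = Pool.Agent.W811.Dos.upDim ν := by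
  unfold dimMeasure Pool.Agent.W811.Dos.upDim
  refine iInf_congr fun S => iInf_congr fun hS => ?_
  exact iInf_congr_Prop (by rw [prob_compl_eq_zero_iff hS]) (fun _ => rfl)

/-- **For every coupling there is exactly one density of states measure, and its Hausdorff dimension
does not increase with the coupling.** -/
theorem result :
    (∀ lam : ℝ, 0 < lam → ∃! ν : Measure ℝ, IsDensityOfStates lam ν) ∧
    ∀ a b : ℝ, 0 < a → a ≤ b → ∀ μ ν : Measure ℝ, IsDensityOfStates a μ → IsDensityOfStates b ν →
      dimMeasure ν ≤ dimMeasure μ := by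
  obtain ⟨h1, h2⟩ := Pool.Agent.Q266.FD.final
  refine ⟨fun lam hl => ?_, fun a b ha hab μ ν hμ hν => ?_⟩
  · obtain ⟨ν, h3, h4⟩ := h1 lam hl
    exact ⟨ν, h3, h4⟩
  · have := hμ.1
    have := hν.1
    rw [dim_eq, dim_eq]
    exact h2 a b ha hab μ ν hμ hν

end Pool.Agent.Results.MP_24b761_mp.DimensionNonIncreasing
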